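import Mathlib
import Pool.Agent.H773.LK.Spec3

/-!
`S_CUR`: `L²(X × Y) = L²(X; L²(Y))`.
-/

set_option autoImplicit false

noncomputable section

namespace Pool.Agent.H155.LK

open MeasureTheory Filter Topology Set
open scoped ENNReal NNReal

/-- a map to a separable space is measurable if the distances to all points are measurable -/
lemma meas_of_edist {X E : Type*} [MeasurableSpace X] [PseudoMetricSpace E]
    [SecondCountableTopology E] [MeasurableSpace E] [BorelSpace E] (F : X → E)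
    (h : ∀ c : E, Measurable fun x => edist (F x) c) : Measurable F := by
  apply measurable_of_isOpen
  intro U hU
  rcases isEmpty_or_nonempty E with hE | hE
  · have : IsEmpty X := ⟨fun x => hE.false (F x)⟩
    exact (Subsingleton.measurableSet)
  · set d := TopologicalSpace.denseSeq E with hd
    have hball : ∀ (c : E) (q : ℝ), MeasurableSet (F ⁻¹' Metric.ball c q) := by
      intro c q
      have : F ⁻¹' Metric.ball c q = {x | edist (F x) c < ENNReal.ofReal q} := by
        ext x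
        simp only [mem_preimage, Metric.mem_ball, mem_ofPred_eq]
        rw [edist_lt_ofReal]
      rw [this]
      exact measurableSet_lt (h c) measurable_const
    have hU2 : F ⁻¹' U = ⋃ (n : ℕ), ⋃ (q : ℚ), ⋃ (_ : Metric.ball (d n) (q : ℝ) ⊆ U),
        F ⁻¹' Metric.ball (d n) (q : ℝ) := by
      ext x
      simp only [mem_preimage, mem_iUnion, exists_prop]
      constructor
      · intro hx
        obtain ⟨r, hr, hrU⟩ := Metric.isOpen_iff.1 hU (F x) hx
        obtain ⟨n, hn⟩ := (TopologicalSpace.denseRange_denseSeq E).exists_dist_lt (F x) (half_pos hr)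
        obtain ⟨q, hq1, hq2⟩ := exists_rat_btwn hn
        refine ⟨n, q, ?_, ?_⟩
        · intro y hy
          apply hrU
          rw [Metric.mem_ball] at hy ⊢
          calc dist y (F x) ≤ dist y (d n) + dist (d n) (F x) := dist_triangle _ _ _
            _ < q + r / 2 := by
                rw [dist_comm (d n) (F x)]
                exact add_lt_add hy hn
            _ < r := by linarith
        · rw [Metric.mem_ball]
          exact hq1
      · rintro ⟨n, q, h1, h2⟩
        exact h1 h2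
    rw [hU2]
    exact MeasurableSet.iUnion fun n => MeasurableSet.iUnion fun q => MeasurableSet.iUnion fun _ =>
      hball _ _

variable {X Y : Type*} [MeasurableSpace X] [MeasurableSpace Y] {μ : Measure X} {ν : Measure Y}

lemma eL2 {Z E : Type*} [MeasurableSpace Z] [NormedAddCommGroup E] (m : Measure Z) (f : Z → E) :
    eLpNorm f 2 m = (∫⁻ z, ‖f z‖ₑ ^ (2 : ℝ) ∂m) ^ (1 / 2 : ℝ) := by
  rw [eLpNorm_eq_lintegral_rpow_enorm_toReal (by norm_num) (by norm_num)]
  simp

open Classical in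
/-- the slices of `g` as elements of `L²` -/
def sl (ν : Measure Y) (g : X × Y → ℂ) (x : X) : Lp ℂ 2 ν :=
  if h : MemLp (fun y => g (x, y)) 2 ν then h.toLp else 0

omit [MeasurableSpace X] in
lemma sl_spec {g : X × Y → ℂ} {x : X} (h : MemLp (fun y => g (x, y)) 2 ν) :
    (sl ν g x : Y → ℂ) =ᵐ[ν] fun y => g (x, y) := by
  unfold sl
  rw [dif_pos h]
  exact h.coeFn_toLp

variable [SFinite ν]

lemma meas_A {g : X × Y → ℂ} (hg : StronglyMeasurable g) (c : Y → ℂ) (hc : StronglyMeasurable c) :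
    Measurable fun x => ∫⁻ y, ‖g (x, y) - c y‖ₑ ^ (2 : ℝ) ∂ν := by
  have h1 : Measurable fun p : X × Y => ‖g p - c p.2‖ₑ ^ (2 : ℝ) := by
    have h2 : Measurable g := hg.measurable
    have h3 : Measurable c := hc.measurable
    fun_prop
  exact h1.lintegral_prod_right'

lemma slice_sm {g : X × Y → ℂ} (hg : StronglyMeasurable g) (x : X) :
    StronglyMeasurable fun y => g (x, y) := hg.comp_measurable measurable_prodMk_left

omit [SFinite ν] in
lemma memLp_slice_iff {g : X × Y → ℂ} (hg : StronglyMeasurable g) (x : X) :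
    MemLp (fun y => g (x, y)) 2 ν ↔ ∫⁻ y, ‖g (x, y)‖ₑ ^ (2 : ℝ) ∂ν < ⊤ := by
  unfold MemLp
  rw [eL2]
  constructor
  · rintro ⟨-, h⟩
    by_contra h2
    rw [not_lt, top_le_iff] at h2
    rw [h2] at h
    simp at h
  · intro h
    exact ⟨(slice_sm hg x).aestronglyMeasurable, ENNReal.rpow_lt_top_of_nonneg (by norm_num) h.ne⟩

lemma meas_N {g : X × Y → ℂ} (hg : StronglyMeasurable g) :
    MeasurableSet {x | MemLp (fun y => g (x, y)) 2 ν} := by
  have h1 := meas_A (ν := ν) hg (fun _ => 0) stronglyMeasurable_const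
  simp only [sub_zero] at h1
  have : {x | MemLp (fun y => g (x, y)) 2 ν} = {x | ∫⁻ y, ‖g (x, y)‖ₑ ^ (2 : ℝ) ∂ν < ⊤} := by
    ext x
    exact memLp_slice_iff hg x
  rw [this]
  exact measurableSet_lt h1 measurable_const

variable [SecondCountableTopology (Lp ℂ 2 ν)]

lemma sl_sm {g : X × Y → ℂ} (hg : StronglyMeasurable g) : StronglyMeasurable (sl ν g) := by
  borelize ↥(Lp ℂ 2 ν)
  apply Measurable.stronglyMeasurable
  apply meas_of_edist
  intro c
  classical
  have h1 : (fun x => edist (sl ν g x) c) = fun x => if x ∈ {x | MemLp (fun y => g (x, y)) 2 ν} then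
      (∫⁻ y, ‖g (x, y) - c y‖ₑ ^ (2 : ℝ) ∂ν) ^ (1 / 2 : ℝ) else edist (0 : Lp ℂ 2 ν) c := by
    funext x
    split_ifs with h
    · rw [Lp.edist_def, ← eL2]
      apply eLpNorm_congr_ae
      filter_upwards [sl_spec h] with y hy
      rw [Pi.sub_apply, hy]
    · have h' : ¬ MemLp (fun y => g (x, y)) 2 ν := h
      unfold sl
      rw [dif_neg h']
  rw [h1]
  apply Measurable.ite (meas_N hg) _ measurable_const
  exact (meas_A hg c (Lp.stronglyMeasurable c)).pow_const _

variable [SFinite μ]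

omit [SecondCountableTopology (Lp ℂ 2 ν)] in
lemma lint_eq {g : X × Y → ℂ} (hg : StronglyMeasurable g) :
    ∫⁻ p, ‖g p‖ₑ ^ (2 : ℝ) ∂(μ.prod ν) = ∫⁻ x, ∫⁻ y, ‖g (x, y)‖ₑ ^ (2 : ℝ) ∂ν ∂μ := by
  apply lintegral_prod
  have h2 : Measurable g := hg.measurable
  fun_prop

omit [SecondCountableTopology (Lp ℂ 2 ν)] in
lemma ae_memLp {g : X × Y → ℂ} (hg : StronglyMeasurable g) (h : MemLp g 2 (μ.prod ν)) :
    ∀ᵐ x ∂μ, MemLp (fun y => g (x, y)) 2 ν := by
  have h1 : ∫⁻ p, ‖g p‖ₑ ^ (2 : ℝ) ∂(μ.prod ν) < ⊤ := by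
    by_contra h2
    rw [not_lt, top_le_iff] at h2
    have h3 := h.2
    rw [eL2, h2] at h3
    simp at h3
  rw [lint_eq hg] at h1
  have h2 := meas_A (ν := ν) hg (fun _ => 0) stronglyMeasurable_const
  simp only [sub_zero] at h2
  filter_upwards [ae_lt_top h2 h1.ne] with x hx
  exact (memLp_slice_iff hg x).2 hx

lemma sl_norm {g : X × Y → ℂ} (hg : StronglyMeasurable g) (h : MemLp g 2 (μ.prod ν)) :
    eLpNorm (sl ν g) 2 μ = eLpNorm g 2 (μ.prod ν) := by
  rw [eL2, eL2, lint_eq hg]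
  congr 1
  apply lintegral_congr_ae
  filter_upwards [ae_memLp hg h] with x hx
  rw [Lp.enorm_def, eLpNorm_congr_ae (sl_spec hx), eL2, ← ENNReal.rpow_mul]
  norm_num

lemma sl_memLp {g : X × Y → ℂ} (hg : StronglyMeasurable g) (h : MemLp g 2 (μ.prod ν)) :
    MemLp (sl ν g) 2 μ := by
  refine ⟨(sl_sm hg).aestronglyMeasurable, ?_⟩
  rw [sl_norm hg h]
  exact h.2

/-- the currying map -/
def cu (f : Lp ℂ 2 (μ.prod ν)) : Lp (Lp ℂ 2 ν) 2 μ := (sl_memLp (Lp.stronglyMeasurable f) (Lp.memLp f)).toLp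

lemma cu_spec (f : Lp ℂ 2 (μ.prod ν)) :
    ∀ᵐ x ∂μ, (cu f x : Y → ℂ) =ᵐ[ν] fun y => f (x, y) := by
  have h1 : (cu f : X → Lp ℂ 2 ν) =ᵐ[μ] sl ν f := MemLp.coeFn_toLp _
  filter_upwards [h1, ae_memLp (Lp.stronglyMeasurable f) (Lp.memLp f)] with x hx hx2
  rw [hx]
  exact sl_spec hx2

lemma cu_unique (f : Lp ℂ 2 (μ.prod ν)) (F : Lp (Lp ℂ 2 ν) 2 μ)
    (h : ∀ᵐ x ∂μ, (F x : Y → ℂ) =ᵐ[ν] fun y => f (x, y)) : F = cu f := by
  apply Lp.ext
  filter_upwards [h, cu_spec f] with x h1 h2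
  apply Lp.ext
  exact h1.trans h2.symm

lemma cu_add (f g : Lp ℂ 2 (μ.prod ν)) : cu (f + g) = cu f + cu g := by
  symm
  apply cu_unique
  have h1 := Measure.ae_ae_of_ae_prod (Lp.coeFn_add f g)
  filter_upwards [h1, cu_spec f, cu_spec g, Lp.coeFn_add (cu f) (cu g)] with x h1 h2 h3 h4
  rw [h4, Pi.add_apply]
  filter_upwards [h1, h2, h3, Lp.coeFn_add (cu f x) (cu g x)] with y h5 h6 h7 h8
  rw [h8, Pi.add_apply, h6, h7, h5, Pi.add_apply]

lemma cu_smul (c : ℂ) (f : Lp ℂ 2 (μ.prod ν)) : cu (c • f) = c • cu f := by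
  symm
  apply cu_unique
  have h1 := Measure.ae_ae_of_ae_prod (Lp.coeFn_smul c f)
  filter_upwards [h1, cu_spec f, Lp.coeFn_smul c (cu f)] with x h1 h2 h4
  rw [h4, Pi.smul_apply]
  filter_upwards [h1, h2, Lp.coeFn_smul c (cu f x)] with y h5 h6 h8
  rw [h8, Pi.smul_apply, h6, h5, Pi.smul_apply]

lemma cu_norm (f : Lp ℂ 2 (μ.prod ν)) : ‖cu f‖ = ‖f‖ := by
  rw [cu, Lp.norm_toLp, sl_norm (Lp.stronglyMeasurable f) (Lp.memLp f), Lp.norm_def]

/-- the currying map as a linear isometry -/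
def cuI : Lp ℂ 2 (μ.prod ν) →ₗᵢ[ℂ] Lp (Lp ℂ 2 ν) 2 μ where
  toFun := cu
  map_add' := cu_add
  map_smul' := cu_smul
  norm_map' := cu_norm

lemma cu_surj : Function.Surjective (cuI (μ := μ) (ν := ν)) := by
  intro F
  induction F using Lp.induction (by norm_num : (2 : ℝ≥0∞) ≠ ⊤) with
  | indicatorConst c hs hμs =>
    rename_i s
    have hc := Lp.stronglyMeasurable c
    have hsm : StronglyMeasurable fun p : X × Y => s.indicator (fun _ => (1 : ℝ)) p.1 • c p.2 := by
      have h1 : StronglyMeasurable fun p : X × Y => s.indicator (fun _ => (1 : ℝ)) p.1 :=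
        (stronglyMeasurable_const.indicator hs).comp_measurable measurable_fst
      have h2 : StronglyMeasurable fun p : X × Y => c p.2 := hc.comp_measurable measurable_snd
      exact h1.smul h2
    have hmem : MemLp (fun p : X × Y => s.indicator (fun _ => (1 : ℝ)) p.1 • c p.2) 2 (μ.prod ν) := by
      refine ⟨hsm.aestronglyMeasurable, ?_⟩
      rw [eL2, lint_eq hsm]
      apply ENNReal.rpow_lt_top_of_nonneg (by norm_num)
      have h1 : ∀ x, ∫⁻ y, ‖s.indicator (fun _ => (1 : ℝ)) x • c y‖ₑ ^ (2 : ℝ) ∂ν =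
          s.indicator (fun _ => ∫⁻ y, ‖c y‖ₑ ^ (2 : ℝ) ∂ν) x := by
        intro x
        by_cases hx : x ∈ s
        · simp [hx]
        · simp [hx]
      simp only [h1]
      rw [lintegral_indicator hs, lintegral_const, Measure.restrict_apply_univ]
      apply ENNReal.mul_ne_top _ hμs.ne
      have h2 := (Lp.memLp c).2
      rw [eL2] at h2
      intro h3
      rw [h3] at h2
      simp at h2
    refine ⟨hmem.toLp, ?_⟩
    symm
    apply cu_unique
    have h1 := Measure.ae_ae_of_ae_prod hmem.coeFn_toLp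
    have h2 : (Lp.simpleFunc.indicatorConst 2 hs hμs.ne c : Lp (Lp ℂ 2 ν) 2 μ) =ᵐ[μ]
        s.indicator fun _ => c := by
      rw [Lp.simpleFunc.coe_indicatorConst]
      exact indicatorConstLp_coeFn
    filter_upwards [h1, h2] with x h3 h4
    rw [h4]
    by_cases hx : x ∈ s
    · rw [indicator_of_mem hx]
      filter_upwards [h3] with y h5
      rw [h5]
      simp [hx]
    · rw [indicator_of_notMem hx]
      filter_upwards [h3, Lp.coeFn_zero ℂ 2 ν] with y h5 h6
      rw [h5, h6]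
      simp [hx]
  | add hf hg hd h1 h2 =>
    obtain ⟨a, ha⟩ := h1
    obtain ⟨b, hb⟩ := h2
    exact ⟨a + b, by rw [map_add, ha, hb]⟩
  | isClosed =>
    have : {f | ∃ a, cuI (μ := μ) (ν := ν) a = f} = Set.range (cuI (μ := μ) (ν := ν)) := rfl
    rw [this]
    exact (cuI (μ := μ) (ν := ν)).isometry.isClosedEmbedding.isClosed_range

/-- the currying map as a linear isometric equivalence -/
def cuE : Lp ℂ 2 (μ.prod ν) ≃ₗᵢ[ℂ] Lp (Lp ℂ 2 ν) 2 μ := LinearIsometryEquiv.ofSurjective cuI cu_surj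

lemma cuE_spec (f : Lp ℂ 2 (μ.prod ν)) :
    ∀ᵐ x ∂μ, (cuE f x : Y → ℂ) =ᵐ[ν] fun y => f (x, y) := cu_spec f

instance sct : SecondCountableTopology (Lp ℂ 2 Pool.Agent.H773.LK.mZR) := by
  have : Fact ((2 : ℝ≥0∞) ≠ ⊤) := ⟨by norm_num⟩
  infer_instance

theorem t_CUR : Pool.Agent.H773.LK.S_CUR :=
  ⟨cuE (μ := Pool.Agent.H773.LK.m01) (ν := Pool.Agent.H773.LK.mZR), fun f => cuE_spec f⟩

end Pool.Agent.H155.LK
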