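import Mathlib
import Pool.Agent.H773.LK.Spec

/-!
`S_DEC`: decay of the fibre operator at `1/2 + iτ`, `τ → ∞`.
-/

set_option autoImplicit false

noncomputable section

namespace Pool.Agent.H155.LK

open MeasureTheory Filter Topology Set
open scoped ENNReal NNReal ComplexConjugate InnerProductSpace
open Pool.Agent.H773.LK

/-! ### kernel operators -/

lemma kop_zero (hKOP : S_KOP) {L : ℝ} (hL : 0 < L) : kop L (fun _ _ => 0) = 0 := by
  have h := (hKOP L hL).2.2 (fun _ _ => 0) 0 continuous_const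
  simpa using h

lemma kop_sum (hKOP : S_KOP) {L : ℝ} (hL : 0 < L) {ι : Type*} (S : Finset ι) (k : ι → ℝ → ℝ → ℂ)
    (hk : ∀ i, Continuous (Function.uncurry (k i))) :
    Continuous (Function.uncurry fun s t => ∑ i ∈ S, k i s t) ∧
    kop L (fun s t => ∑ i ∈ S, k i s t) = ∑ i ∈ S, kop L (k i) := by
  classical
  induction S using Finset.induction_on with
  | empty =>
    simp only [Finset.sum_empty]
    exact ⟨continuous_const, kop_zero hKOP hL⟩
  | insert a S ha ih =>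
    have e : (fun s t => ∑ i ∈ insert a S, k i s t) = fun s t => k a s t + ∑ i ∈ S, k i s t := by
      funext s t
      rw [Finset.sum_insert ha]
    rw [e, Finset.sum_insert ha]
    refine ⟨(hk a).add ih.1, ?_⟩
    rw [(hKOP L hL).2.1 (k a) _ (hk a) ih.1, ih.2]

lemma kop_sub (hKOP : S_KOP) {L : ℝ} (hL : 0 < L) {k k' : ℝ → ℝ → ℂ}
    (hk : Continuous (Function.uncurry k)) (hk' : Continuous (Function.uncurry k')) :
    kop L (fun s t => k s t - k' s t) = kop L k - kop L k' := by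
  have h := (hKOP L hL).2.1 (fun s t => k s t - k' s t) k' (hk.sub hk') hk'
  simp only [sub_add_cancel] at h
  rw [h, add_sub_cancel_right]

lemma kop_le (hKOP : S_KOP) {L : ℝ} (hL : 0 < L) {k : ℝ → ℝ → ℂ}
    (hk : Continuous (Function.uncurry k)) {B : ℝ} (hB0 : 0 ≤ B)
    (hB : ∀ s ∈ Ioc (0 : ℝ) L, ∀ t ∈ Ioc (0 : ℝ) L, ‖k s t‖ ≤ B) : ‖kop L k‖ ≤ L * B := by
  have h1 := ((hKOP L hL).1 k hk).2.1
  have h2 : ∀ s ∈ Ioc (0 : ℝ) L, ‖∫ t in Ioc (0 : ℝ) L, ‖k s t‖ ^ 2‖ ≤ B ^ 2 * L := by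
    intro s hs
    have := norm_setIntegral_le_of_norm_le_const (μ := volume) (s := Ioc (0 : ℝ) L)
      (f := fun t => ‖k s t‖ ^ 2) (C := B ^ 2) (by simp) (fun t ht => by
        rw [Real.norm_of_nonneg (by positivity)]
        exact pow_le_pow_left₀ (norm_nonneg _) (hB s hs t ht) 2)
    simpa [Measure.real, hL.le] using this
  have h3 := norm_setIntegral_le_of_norm_le_const (μ := volume) (s := Ioc (0 : ℝ) L)
      (f := fun s => ∫ t in Ioc (0 : ℝ) L, ‖k s t‖ ^ 2) (C := B ^ 2 * L) (by simp) h2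
  have h4 : ‖kop L k‖ ^ 2 ≤ (L * B) ^ 2 := by
    refine h1.trans ((Real.le_norm_self _).trans (h3.trans ?_))
    simp [Measure.real, hL.le]
    nlinarith
  exact (sq_le_sq₀ (norm_nonneg _) (by positivity)).1 h4

lemma kop_le_lint (hKOP : S_KOP) {L : ℝ} (hL : 0 < L) {k : ℝ → ℝ → ℂ}
    (hk : Continuous (Function.uncurry k)) {D : ℝ} (hD : 0 ≤ D)
    (h : ∫⁻ s in Ioc (0 : ℝ) L, ∫⁻ t in Ioc (0 : ℝ) L, ENNReal.ofReal (‖k s t‖ ^ 2) ≤ ENNReal.ofReal D) :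
    ‖kop L k‖ ^ 2 ≤ D := by
  have h1 := ((hKOP L hL).1 k hk).2.1
  refine h1.trans ?_
  have h2 : ∀ s, ENNReal.ofReal (∫ t in Ioc (0 : ℝ) L, ‖k s t‖ ^ 2) =
      ∫⁻ t in Ioc (0 : ℝ) L, ENNReal.ofReal (‖k s t‖ ^ 2) := by
    intro s
    apply ofReal_integral_eq_lintegral_ofReal
    · have hc : Continuous fun t => ‖k s t‖ ^ 2 := by
        have : Continuous fun t => k s t := hk.comp (Continuous.prodMk_right s)
        fun_prop
      exact hc.integrableOn_Ioc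
    · exact Eventually.of_forall fun t => by positivity
  rw [integral_eq_lintegral_of_nonneg_ae]
  · apply ENNReal.toReal_le_of_le_ofReal hD
    refine le_trans (le_of_eq ?_) h
    apply lintegral_congr
    intro s
    exact h2 s
  · exact Eventually.of_forall fun s => integral_nonneg fun t => by positivity
  · have hc : Continuous (Function.uncurry fun s t => ‖k s t‖ ^ 2) := (hk.norm).pow 2
    have hm : StronglyMeasurable (Function.uncurry fun s t => ‖k s t‖ ^ 2) := hc.stronglyMeasurable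
    exact (hm.integral_prod_right (ν := volume.restrict (Ioc (0 : ℝ) L))).aestronglyMeasurable

/-! ### scalar facts -/

lemma csq_sq (w : ℂ) : csq w ^ 2 = w := by
  unfold csq
  rw [one_div]
  exact Complex.cpow_nat_inv_pow w (by norm_num)

lemma csq_re (w : ℂ) : 0 ≤ (csq w).re := by
  unfold csq
  by_cases hw : w = 0
  · rw [hw, Complex.zero_cpow (by norm_num)]
    simp
  · rw [Complex.cpow_def_of_ne_zero hw, Complex.exp_re]
    apply mul_nonneg (Real.exp_pos _).le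
    apply Real.cos_nonneg_of_neg_pi_div_two_le_of_le
    · have h1 := Complex.neg_pi_lt_arg w
      have : (Complex.log w * (1 / 2)).im = Complex.arg w / 2 := by
        rw [show (1 / 2 : ℂ) = ((1 / 2 : ℝ) : ℂ) by norm_num, Complex.im_mul_ofReal, Complex.log_im]
        ring
      rw [this]
      linarith
    · have h1 := Complex.arg_le_pi w
      have : (Complex.log w * (1 / 2)).im = Complex.arg w / 2 := by
        rw [show (1 / 2 : ℂ) = ((1 / 2 : ℝ) : ℂ) by norm_num, Complex.im_mul_ofReal, Complex.log_im]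
        ring
      rw [this]
      linarith

lemma kmi_sq (β : ℝ) (θ : ℂ) (lam : ℝ) (m : ℤ) :
    kmi β θ lam m ^ 2 = ((β : ℂ) * ((m : ℂ) + θ)) ^ 2 - (lam : ℂ) := by
  unfold kmi
  split_ifs
  · exact csq_sq _
  · rw [← map_pow, csq_sq, Complex.conj_conj]

lemma kmi_re (β : ℝ) (θ : ℂ) (lam : ℝ) (m : ℤ) : 0 ≤ (kmi β θ lam m).re := by
  unfold kmi
  split_ifs
  · exact csq_re _
  · rw [Complex.conj_re]
    exact csq_re _

lemma exp_neg_sub (z w : ℂ) (hz : 0 ≤ z.re) (hw : 0 ≤ w.re) :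
    ‖Complex.exp (-z) - Complex.exp (-w)‖ ≤ ‖z - w‖ := by
  have hconv : Convex ℝ {z : ℂ | 0 ≤ z.re} := convex_halfSpace_re_ge 0
  have h := hconv.norm_image_sub_le_of_norm_hasDerivWithin_le (f := fun z : ℂ => Complex.exp (-z))
    (f' := fun z => -Complex.exp (-z)) (C := 1) (x := w) (y := z)
    (fun x _ => by
      have : HasDerivAt (fun z : ℂ => Complex.exp (-z)) (-Complex.exp (-x)) x := by
        have := (hasDerivAt_neg x).cexp
        simpa using this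
      exact this.hasDerivWithinAt)
    (fun x hx => by
      rw [norm_neg, Complex.norm_exp, Real.exp_le_one_iff, Complex.neg_re]
      have : 0 ≤ x.re := hx
      linarith) hw hz
  simpa using h

/-- comparison of two roots -/
lemma root_cmp {κ a : ℂ} {lam : ℝ} (h : κ ^ 2 = a ^ 2 - lam) (hκ : 0 ≤ κ.re) (ha : 0 < a.re)
    (hai : a.im ≠ 0) (hlam : 2 * |lam| ≤ ‖a‖ ^ 2) :
    ‖κ - a‖ * ‖a‖ ≤ |lam| ∧ ‖a‖ ≤ 2 * ‖κ‖ := by
  have him : κ.re * κ.im = a.re * a.im := by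
    have h1 := congrArg Complex.im h
    simp only [sq, Complex.mul_im, Complex.sub_im, Complex.ofReal_im] at h1
    linarith
  have hane : a.re * a.im ≠ 0 := mul_ne_zero ha.ne' hai
  have hκ0 : 0 < κ.re := by
    rcases hκ.lt_or_eq with h1 | h1
    · exact h1
    · exfalso
      rw [← h1, zero_mul] at him
      exact hane him.symm
  have hII : 0 ≤ κ.im * a.im := by
    have : κ.re * (κ.im * a.im) = a.re * a.im ^ 2 := by rw [← mul_assoc, him]; ring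
    have h2 : 0 ≤ κ.re * (κ.im * a.im) := by rw [this]; positivity
    exact (mul_nonneg_iff_of_pos_left hκ0).1 h2
  have hsum : ‖a‖ ≤ ‖κ + a‖ := by
    have h1 : ‖a‖ ^ 2 ≤ ‖κ + a‖ ^ 2 := by
      rw [← Complex.normSq_eq_norm_sq, ← Complex.normSq_eq_norm_sq, Complex.normSq_apply,
        Complex.normSq_apply]
      simp only [Complex.add_re, Complex.add_im]
      nlinarith [mul_nonneg hκ0.le ha.le]
    exact (sq_le_sq₀ (norm_nonneg _) (norm_nonneg _)).1 h1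
  have hprod : ‖κ - a‖ * ‖κ + a‖ = |lam| := by
    rw [← norm_mul]
    have : (κ - a) * (κ + a) = -(lam : ℂ) := by
      have : (κ - a) * (κ + a) = κ ^ 2 - a ^ 2 := by ring
      rw [this, h]; ring
    rw [this, norm_neg, Complex.norm_real, Real.norm_eq_abs]
  refine ⟨?_, ?_⟩
  · rw [← hprod]
    exact mul_le_mul_of_nonneg_left hsum (norm_nonneg _)
  · have h1 : ‖a‖ ^ 2 ≤ ‖κ‖ ^ 2 + |lam| := by
      have h2 : a ^ 2 = κ ^ 2 + (lam : ℂ) := by rw [h]; ring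
      calc ‖a‖ ^ 2 = ‖κ ^ 2 + (lam : ℂ)‖ := by rw [← h2, norm_pow]
        _ ≤ ‖κ ^ 2‖ + ‖(lam : ℂ)‖ := norm_add_le _ _
        _ = _ := by rw [norm_pow, Complex.norm_real, Real.norm_eq_abs]
    have h3 : ‖a‖ ^ 2 ≤ (2 * ‖κ‖) ^ 2 := by nlinarith [norm_nonneg κ]
    exact (sq_le_sq₀ (norm_nonneg _) (by positivity)).1 h3

/-- comparison of the kernels of two roots -/
lemma ker_cmp {κ a : ℂ} {lam Y u : ℝ} (h : κ ^ 2 = a ^ 2 - lam) (hκ : 0 ≤ κ.re) (ha : 0 < a.re)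
    (hai : a.im ≠ 0) (hlam : 2 * |lam| ≤ ‖a‖ ^ 2) (ha1 : 1 ≤ ‖a‖) (hu : 0 ≤ u) (huY : u ≤ Y) :
    ‖Complex.exp (-(κ * (u : ℂ))) / (2 * κ) - Complex.exp (-(a * (u : ℂ))) / (2 * a)‖ ≤
      |lam| * (Y + 1) / ‖a‖ ^ 2 := by
  obtain ⟨h1, h2⟩ := root_cmp h hκ ha hai hlam
  have ha0 : 0 < ‖a‖ := by linarith
  have hκ0 : 0 < ‖κ‖ := by linarith
  have hane : a ≠ 0 := norm_pos_iff.1 ha0
  have hκne : κ ≠ 0 := norm_pos_iff.1 hκ0
  have e1 : Complex.exp (-(κ * (u : ℂ))) / (2 * κ) - Complex.exp (-(a * (u : ℂ))) / (2 * a) =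
      (Complex.exp (-(κ * (u : ℂ))) - Complex.exp (-(a * (u : ℂ)))) / (2 * κ) +
        Complex.exp (-(a * (u : ℂ))) * (a - κ) / (2 * κ * a) := by
    field_simp
    ring
  have hre : ∀ x : ℂ, 0 ≤ x.re → 0 ≤ (x * (u : ℂ)).re := by
    intro x hx
    rw [Complex.re_mul_ofReal]
    exact mul_nonneg hx hu
  have e2 : ‖Complex.exp (-(κ * (u : ℂ))) - Complex.exp (-(a * (u : ℂ)))‖ ≤ ‖κ - a‖ * Y := by
    refine (exp_neg_sub _ _ (hre κ hκ) (hre a ha.le)).trans ?_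
    rw [← sub_mul, norm_mul, Complex.norm_real, Real.norm_eq_abs, abs_of_nonneg hu]
    exact mul_le_mul_of_nonneg_left huY (norm_nonneg _)
  have e3 : ‖Complex.exp (-(a * (u : ℂ)))‖ ≤ 1 := by
    rw [Complex.norm_exp, Real.exp_le_one_iff, Complex.neg_re]
    linarith [hre a ha.le]
  have hY : 0 ≤ Y := hu.trans huY
  have hn2 : ‖(2 : ℂ)‖ = 2 := by norm_num
  calc _ ≤ ‖(Complex.exp (-(κ * (u : ℂ))) - Complex.exp (-(a * (u : ℂ)))) / (2 * κ)‖ +
        ‖Complex.exp (-(a * (u : ℂ))) * (a - κ) / (2 * κ * a)‖ := by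
        rw [e1]; exact norm_add_le _ _
    _ ≤ ‖κ - a‖ * Y / (2 * ‖κ‖) + 1 * ‖κ - a‖ / (2 * ‖κ‖ * ‖a‖) := by
        rw [norm_div, norm_div, norm_mul, norm_mul, norm_mul, norm_mul, hn2, norm_sub_rev a κ]
        gcongr
    _ ≤ ‖κ - a‖ * Y / ‖a‖ + ‖κ - a‖ / ‖a‖ := by
        apply add_le_add
        · apply div_le_div_of_nonneg_left (by positivity) ha0 h2
        · rw [one_mul]
          apply div_le_div_of_nonneg_left (by positivity) ha0
          nlinarith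
    _ = ‖κ - a‖ * ‖a‖ * (Y + 1) / ‖a‖ ^ 2 := by
        field_simp
    _ ≤ _ := by
        apply div_le_div_of_nonneg_right _ (by positivity)
        exact mul_le_mul_of_nonneg_right h1 (by linarith)

/-! ### the reference roots -/

/-- the parameter `1/2 + iτ` -/
def th (τ : ℝ) : ℂ := ((1 / 2 : ℝ) : ℂ) + τ * Complex.I

lemma th_re (τ : ℝ) : (th τ).re = 1 / 2 := by
  unfold th
  simp

lemma th_im (τ : ℝ) : (th τ).im = τ := by
  unfold th
  simp

lemma th_ne (τ : ℝ) : th τ ≠ 0 := by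
  intro h
  have := th_re τ
  rw [h] at this
  norm_num at this

lemma le_norm_th {τ : ℝ} (hτ : 0 ≤ τ) : τ ≤ ‖th τ‖ := by
  have := Complex.abs_im_le_norm (th τ)
  rwa [th_im, abs_of_nonneg hτ] at this

/-- reference roots -/
def k0 (β τ : ℝ) (m : ℤ) : ℂ :=
  if 0 ≤ m then (β : ℂ) * ((m : ℂ) + th τ) else -((β : ℂ) * ((m : ℂ) + th τ))

lemma k0_sq (β τ : ℝ) (m : ℤ) : k0 β τ m ^ 2 = ((β : ℂ) * ((m : ℂ) + th τ)) ^ 2 := by
  unfold k0
  split_ifs
  · rfl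
  · ring

lemma k0_re {β : ℝ} (hβ : 0 < β) (τ : ℝ) (m : ℤ) : 0 < (k0 β τ m).re := by
  unfold k0
  split_ifs with h
  · rw [Complex.re_ofReal_mul, Complex.add_re, th_re, Complex.intCast_re]
    have : (0 : ℝ) ≤ m := by exact_mod_cast h
    positivity
  · rw [Complex.neg_re, Complex.re_ofReal_mul, Complex.add_re, th_re, Complex.intCast_re]
    have : (m : ℝ) ≤ -1 := by
      have : m ≤ -1 := by omega
      exact_mod_cast this
    nlinarith

lemma k0_im {β τ : ℝ} (hβ : 0 < β) (hτ : 0 < τ) (m : ℤ) : (k0 β τ m).im ≠ 0 := by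
  unfold k0
  have : ((β : ℂ) * ((m : ℂ) + th τ)).im = β * τ := by
    rw [Complex.im_ofReal_mul, Complex.add_im, th_im, Complex.intCast_im, zero_add]
  split_ifs
  · rw [this]; positivity
  · rw [Complex.neg_im, this]
    have : 0 < β * τ := by positivity
    linarith

lemma k0_norm_sq (β τ : ℝ) (m : ℤ) : ‖k0 β τ m‖ ^ 2 = β ^ 2 * (((m : ℝ) + 1 / 2) ^ 2 + τ ^ 2) := by
  rw [← norm_pow, k0_sq, norm_pow, norm_mul, Complex.norm_real, mul_pow, Real.norm_eq_abs, sq_abs,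
    ← Complex.normSq_eq_norm_sq, Complex.normSq_apply, Complex.add_re, Complex.add_im, th_re, th_im,
    Complex.intCast_re, Complex.intCast_im]
  ring

lemma mk_cont {X y : ℝ → ℝ} (hX : Continuous X) (hy : Continuous y) (m : ℤ) (κ : ℂ) :
    Continuous (Function.uncurry (mk X y m κ)) := by
  unfold Pool.Agent.H773.LK.mk Function.uncurry
  simp only
  apply Continuous.div_const
  fun_prop

lemma mk_pos {β : ℝ} (hβ : 0 < β) (X y : ℝ → ℝ) (τ : ℝ) (n : ℕ) (s t : ℝ) :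
    mk X y (n : ℤ) (k0 β τ n) s t = Complex.exp (-(β * th τ * ((|y s - y t| : ℝ) : ℂ))) / (2 * β) *
      (qq β X y s t ^ n / ((n : ℂ) + th τ)) := by
  unfold Pool.Agent.H773.LK.mk k0 qq
  rw [if_pos (by positivity), ← Complex.exp_nat_mul]
  have hβ' : (β : ℂ) ≠ 0 := by exact_mod_cast hβ.ne'
  have e1 : Complex.exp (Complex.I * (((n : ℤ) : ℂ) * ((X s - X t : ℝ) : ℂ))) *
      Complex.exp (-(β * (((n : ℤ) : ℂ) + th τ) * ((|y s - y t| : ℝ) : ℂ))) =
      Complex.exp (-(β * th τ * ((|y s - y t| : ℝ) : ℂ))) *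
        Complex.exp ((n : ℂ) * (Complex.I * ((X s - X t : ℝ) : ℂ) - ((β * |y s - y t| : ℝ) : ℂ))) := by
    rw [← Complex.exp_add, ← Complex.exp_add]
    congr 1
    push_cast
    ring
  rw [e1]
  push_cast
  rw [div_mul_div_comm]
  congr 1
  ring

lemma mk_neg {β : ℝ} (hβ : 0 < β) (X y : ℝ → ℝ) (τ : ℝ) (n : ℕ) (hn : 1 ≤ n) (s t : ℝ) :
    mk X y (-(n : ℤ)) (k0 β τ (-(n : ℤ))) s t =
      Complex.exp (β * th τ * ((|y s - y t| : ℝ) : ℂ)) / (2 * β) *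
      (conj (qq β X y s t) ^ n / ((n : ℂ) + -th τ)) := by
  unfold Pool.Agent.H773.LK.mk k0 qq
  rw [if_neg (by omega), ← Complex.exp_conj, ← Complex.exp_nat_mul]
  have hβ' : (β : ℂ) ≠ 0 := by exact_mod_cast hβ.ne'
  have e1 : Complex.exp (Complex.I * (((-(n : ℤ) : ℤ) : ℂ) * ((X s - X t : ℝ) : ℂ))) *
      Complex.exp (-(-(β * (((-(n : ℤ) : ℤ) : ℂ) + th τ)) * ((|y s - y t| : ℝ) : ℂ))) =
      Complex.exp (β * th τ * ((|y s - y t| : ℝ) : ℂ)) *
        Complex.exp ((n : ℂ) *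
          conj (Complex.I * ((X s - X t : ℝ) : ℂ) - ((β * |y s - y t| : ℝ) : ℂ))) := by
    rw [← Complex.exp_add, ← Complex.exp_add]
    congr 1
    rw [map_sub, map_mul, Complex.conj_I, Complex.conj_ofReal, Complex.conj_ofReal]
    push_cast
    ring
  rw [e1]
  push_cast
  rw [div_mul_div_comm]
  congr 1
  ring

lemma sum_Icc_split {M : Type*} [AddCommMonoid M] (f : ℤ → M) (N : ℕ) :
    ∑ m ∈ Finset.Icc (-(N : ℤ)) N, f m = f 0 + ∑ n ∈ Finset.Ioc 0 N, f (n : ℤ) +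
      ∑ n ∈ Finset.Ioc 0 N, f (-(n : ℤ)) := by
  induction N with
  | zero => simp
  | succ N ih =>
    have e1 : Finset.Icc (-((N + 1 : ℕ) : ℤ)) ((N + 1 : ℕ) : ℤ) =
        insert ((N + 1 : ℕ) : ℤ) (insert (-((N + 1 : ℕ) : ℤ)) (Finset.Icc (-(N : ℤ)) N)) := by
      ext x
      simp only [Finset.mem_Icc, Finset.mem_insert]
      push_cast
      omega
    have e2 : Finset.Ioc 0 (N + 1) = insert (N + 1) (Finset.Ioc 0 N) := by
      ext x
      simp only [Finset.mem_Ioc, Finset.mem_insert]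
      omega
    rw [e1, e2, Finset.sum_insert, Finset.sum_insert, Finset.sum_insert, Finset.sum_insert, ih]
    · abel
    · simp
    · simp
    · simp only [Finset.mem_Icc]
      push_cast
      omega
    · simp only [Finset.mem_insert, Finset.mem_Icc]
      push_cast
      omega

lemma norm_qq_le {β : ℝ} (hβ : 0 < β) (X y : ℝ → ℝ) (s t : ℝ) : ‖qq β X y s t‖ ≤ 1 := by
  unfold qq
  rw [Complex.norm_exp, Real.exp_le_one_iff, Complex.sub_re, Complex.ofReal_re]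
  simp
  positivity

/-- pointwise bound of the reference kernels -/
lemma ref_pt {C : ℝ} (hC : ∀ q c : ℂ, ‖q‖ ≤ 1 → q ≠ 1 → |c.re| ≤ 1 / 2 → ∀ N N' : ℕ,
      ‖∑ m ∈ Finset.Ioc N N', q ^ m / ((m : ℂ) + c)‖ ≤ C * (‖1 - q‖ * (N + 1 + ‖c‖)) ^ (-(1 / 4) : ℝ))
    (hC0 : 0 < C) {β : ℝ} (hβ : 0 < β) (X y : ℝ → ℝ) {τ Y : ℝ} (hτ : 0 < τ) (s t : ℝ)
    (hY : |y s - y t| ≤ Y) (hq : qq β X y s t ≠ 1) (N : ℕ) :
    ‖∑ m ∈ Finset.Icc (-(N : ℤ)) N, mk X y m (k0 β τ m) s t‖ ≤ Real.exp (β * Y / 2) / (2 * β * τ) +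
      Real.exp (β * Y / 2) * C / β * (‖1 - qq β X y s t‖ * τ) ^ (-(1 / 4) : ℝ) := by
  set q := qq β X y s t with hqdef
  set E := Real.exp (β * Y / 2) with hE
  have hY0 : 0 ≤ Y := (abs_nonneg _).trans hY
  have hE0 : 0 < E := Real.exp_pos _
  have hr : 0 < ‖1 - q‖ := norm_pos_iff.2 (sub_ne_zero.2 (Ne.symm hq))
  have hthn := le_norm_th hτ.le
  have hth0 : 0 < ‖th τ‖ := by linarith
  have hnβ : ‖(2 * β : ℂ)‖ = 2 * β := by
    rw [norm_mul, Complex.norm_real, Real.norm_of_nonneg hβ.le]; norm_num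
  have hq1 : ‖q‖ ≤ 1 := norm_qq_le hβ X y s t
  have hm1 : ‖Complex.exp (-(β * th τ * ((|y s - y t| : ℝ) : ℂ)))‖ ≤ E := by
    rw [Complex.norm_exp, hE]
    apply Real.exp_le_exp.2
    rw [Complex.neg_re, Complex.re_mul_ofReal, Complex.re_ofReal_mul, th_re]
    have h1 := abs_nonneg (y s - y t)
    have : 0 ≤ β * (1 / 2) * |y s - y t| := by positivity
    have : 0 ≤ β * Y / 2 := by positivity
    linarith
  have hm2 : ‖Complex.exp (β * th τ * ((|y s - y t| : ℝ) : ℂ))‖ ≤ E := by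
    rw [Complex.norm_exp, hE]
    apply Real.exp_le_exp.2
    rw [Complex.re_mul_ofReal, Complex.re_ofReal_mul, th_re]
    nlinarith
  have hpow : (‖1 - q‖ * ((0 : ℕ) + 1 + ‖th τ‖)) ^ (-(1 / 4) : ℝ) ≤ (‖1 - q‖ * τ) ^ (-(1 / 4) : ℝ) := by
    apply Real.rpow_le_rpow_of_nonpos (by positivity) _ (by norm_num)
    apply mul_le_mul_of_nonneg_left _ hr.le
    push_cast
    linarith
  rw [sum_Icc_split]
  -- the three parts
  have b0 : ‖mk X y 0 (k0 β τ 0) s t‖ ≤ E / (2 * β * τ) := by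
    have := mk_pos hβ X y τ 0 s t
    simp only [Nat.cast_zero, pow_zero, zero_add] at this
    rw [this, norm_mul, norm_div, norm_div, norm_one, hnβ]
    calc _ ≤ E / (2 * β) * (1 / τ) := by gcongr
      _ = _ := by rw [div_mul_div_comm, mul_one]
  have b1 : ‖∑ n ∈ Finset.Ioc 0 N, mk X y (n : ℤ) (k0 β τ n) s t‖ ≤
      E / (2 * β) * (C * (‖1 - q‖ * τ) ^ (-(1 / 4) : ℝ)) := by
    rw [Finset.sum_congr rfl fun n _ => mk_pos hβ X y τ n s t, ← Finset.mul_sum, norm_mul, norm_div, hnβ]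
    have h1 := hC q (th τ) hq1 hq (by rw [th_re]; norm_num) 0 N
    have h2 := h1.trans (mul_le_mul_of_nonneg_left hpow hC0.le)
    gcongr
  have b2 : ‖∑ n ∈ Finset.Ioc 0 N, mk X y (-(n : ℤ)) (k0 β τ (-(n : ℤ))) s t‖ ≤
      E / (2 * β) * (C * (‖1 - q‖ * τ) ^ (-(1 / 4) : ℝ)) := by
    rw [Finset.sum_congr rfl fun n hn => mk_neg hβ X y τ n (Finset.mem_Ioc.1 hn).1 s t,
      ← Finset.mul_sum, norm_mul, norm_div, hnβ]
    have hcq : conj q ≠ 1 := by
      intro h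
      apply hq
      have := congrArg conj h
      rwa [Complex.conj_conj, map_one] at this
    have h1 := hC (conj q) (-th τ) (by rw [Complex.norm_conj]; exact hq1) hcq
      (by rw [Complex.neg_re, th_re]; norm_num) 0 N
    have h3 : ‖1 - conj q‖ = ‖1 - q‖ := by
      rw [← Complex.norm_conj (1 - q), map_sub, map_one]
    rw [norm_neg, h3] at h1
    have h2 := h1.trans (mul_le_mul_of_nonneg_left hpow hC0.le)
    gcongr
  calc _ ≤ ‖mk X y 0 (k0 β τ 0) s t‖ + ‖∑ n ∈ Finset.Ioc 0 N, mk X y (n : ℤ) (k0 β τ n) s t‖ +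
        ‖∑ n ∈ Finset.Ioc 0 N, mk X y (-(n : ℤ)) (k0 β τ (-(n : ℤ))) s t‖ := norm_add₃_le
    _ ≤ E / (2 * β * τ) + E / (2 * β) * (C * (‖1 - q‖ * τ) ^ (-(1 / 4) : ℝ)) +
        E / (2 * β) * (C * (‖1 - q‖ * τ) ^ (-(1 / 4) : ℝ)) := by gcongr
    _ = _ := by
        field_simp
        ring

/-- norm bound of the reference sums -/
lemma ref_bd (hKOP : S_KOP) (hSER : S_SER) (hGEO : S_GEO) {L β : ℝ} {X y : ℝ → ℝ} (hc : Crv L β X y) :
    ∃ Y : ℝ, 0 ≤ Y ∧ (∀ s ∈ Ioc (0 : ℝ) L, ∀ t ∈ Ioc (0 : ℝ) L, |y s - y t| ≤ Y) ∧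
      ∃ A B : ℝ, ∀ τ : ℝ, 0 < τ → ∀ N : ℕ,
        ‖∑ m ∈ Finset.Icc (-(N : ℤ)) N, Mo L X y m (k0 β τ m)‖ ^ 2 ≤
          A * (1 / τ) ^ 2 + B * τ ^ (-(1 / 2) : ℝ) := by
  have hL := hc.L_pos
  have hβ := hc.β_pos
  obtain ⟨C, hC0, hC⟩ := hSER
  obtain ⟨hq, CG, hCG0, hCG⟩ := hGEO L β X y hc
  obtain ⟨Y0, hY0⟩ := (isCompact_Icc (a := (0 : ℝ)) (b := L)).exists_bound_of_continuousOn
    hc.y_cont.continuousOn
  have hY00 : 0 ≤ Y0 := (norm_nonneg _).trans (hY0 0 ⟨le_rfl, hL.le⟩)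
  have hY : ∀ s ∈ Ioc (0 : ℝ) L, ∀ t ∈ Ioc (0 : ℝ) L, |y s - y t| ≤ 2 * Y0 := by
    intro s hs t ht
    have h1 := hY0 s ⟨hs.1.le, hs.2⟩
    have h2 := hY0 t ⟨ht.1.le, ht.2⟩
    rw [Real.norm_eq_abs] at h1 h2
    have := abs_sub (y s) (y t)
    linarith
  refine ⟨2 * Y0, by linarith, hY, ?_⟩
  set E := Real.exp (β * (2 * Y0) / 2) with hE
  have hE0 : 0 < E := Real.exp_pos _
  refine ⟨L ^ 2 * (2 * (E / (2 * β)) ^ 2), 2 * (E * C / β) ^ 2 * CG, fun τ hτ N => ?_⟩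
  obtain ⟨hks, hke⟩ := kop_sum hKOP hL (Finset.Icc (-(N : ℤ)) N) (fun m => mk X y m (k0 β τ m))
    (fun m => mk_cont hc.X_cont hc.y_cont m _)
  have e1 : ∑ m ∈ Finset.Icc (-(N : ℤ)) N, Mo L X y m (k0 β τ m) =
      kop L (fun s t => ∑ m ∈ Finset.Icc (-(N : ℤ)) N, mk X y m (k0 β τ m) s t) := by
    rw [hke]
    rfl
  rw [e1]
  have hτ2 : 0 < τ ^ (-(1 / 2) : ℝ) := Real.rpow_pos_of_pos hτ _
  set c1 : ℝ := 2 * (E / (2 * β * τ)) ^ 2 with hc1
  set c2 : ℝ := 2 * (E * C / β) ^ 2 * τ ^ (-(1 / 2) : ℝ) with hc2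
  have hc10 : 0 ≤ c1 := by positivity
  have hc20 : 0 ≤ c2 := by positivity
  have hD : c1 * L * L + c2 * CG = L ^ 2 * (2 * (E / (2 * β)) ^ 2) * (1 / τ) ^ 2 +
      2 * (E * C / β) ^ 2 * CG * τ ^ (-(1 / 2) : ℝ) := by
    rw [hc1, hc2]
    field_simp
  rw [← hD]
  apply kop_le_lint hKOP hL hks (by positivity)
  have hpt : ∀ s ∈ Ioc (0 : ℝ) L, ∀ t ∈ Ioc (0 : ℝ) L, s ≠ t →
      ‖∑ m ∈ Finset.Icc (-(N : ℤ)) N, mk X y m (k0 β τ m) s t‖ ^ 2 ≤
        c1 + c2 * ‖1 - qq β X y s t‖ ^ (-(1 / 2) : ℝ) := by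
    intro s hs t ht hst
    have hne := hq s hs t ht hst
    have hr : 0 < ‖1 - qq β X y s t‖ := norm_pos_iff.2 (sub_ne_zero.2 (Ne.symm hne))
    have h1 := ref_pt hC hC0 hβ X y hτ s t (hY s hs t ht) hne N
    rw [← hE] at h1
    have h2 := pow_le_pow_left₀ (norm_nonneg _) h1 2
    refine h2.trans ?_
    set a := E / (2 * β * τ)
    set b := E * C / β
    set x := (‖1 - qq β X y s t‖ * τ) ^ (-(1 / 4) : ℝ) with hx
    have hx2 : x ^ 2 = τ ^ (-(1 / 2) : ℝ) * ‖1 - qq β X y s t‖ ^ (-(1 / 2) : ℝ) := by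
      rw [hx, ← Real.rpow_natCast, ← Real.rpow_mul (by positivity), Real.mul_rpow hr.le hτ.le]
      norm_num
      rw [mul_comm]
    rw [hc1, hc2]
    calc (a + b * x) ^ 2 ≤ 2 * a ^ 2 + 2 * b ^ 2 * x ^ 2 := by nlinarith [sq_nonneg (a - b * x)]
      _ = _ := by rw [hx2]; ring
  have hin : ∀ s ∈ Ioc (0 : ℝ) L, ∫⁻ t in Ioc (0 : ℝ) L,
      ENNReal.ofReal (‖∑ m ∈ Finset.Icc (-(N : ℤ)) N, mk X y m (k0 β τ m) s t‖ ^ 2) ≤
      ENNReal.ofReal c1 * ENNReal.ofReal L + ENNReal.ofReal c2 * ∫⁻ t in Ioc (0 : ℝ) L,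
        ENNReal.ofReal (‖1 - qq β X y s t‖ ^ (-(1 / 2) : ℝ)) := by
    intro s hs
    calc _ ≤ ∫⁻ t in Ioc (0 : ℝ) L, (ENNReal.ofReal c1 + ENNReal.ofReal c2 *
          ENNReal.ofReal (‖1 - qq β X y s t‖ ^ (-(1 / 2) : ℝ))) := by
          apply lintegral_mono_ae
          rw [ae_restrict_iff' measurableSet_Ioc]
          have : ∀ᵐ t : ℝ, t ≠ s := compl_mem_ae_iff.2 (measure_singleton s)
          filter_upwards [this] with t ht ht2
          rw [← ENNReal.ofReal_mul hc20, ← ENNReal.ofReal_add hc10 (by positivity)]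
          exact ENNReal.ofReal_le_ofReal (hpt s hs t ht2 ht.symm)
      _ = _ := by
          rw [lintegral_add_left measurable_const, lintegral_const, Measure.restrict_apply_univ,
            Real.volume_Ioc, sub_zero, lintegral_const_mul' _ _ ENNReal.ofReal_ne_top]
  calc _ ≤ ∫⁻ s in Ioc (0 : ℝ) L, (ENNReal.ofReal c1 * ENNReal.ofReal L + ENNReal.ofReal c2 *
        ∫⁻ t in Ioc (0 : ℝ) L, ENNReal.ofReal (‖1 - qq β X y s t‖ ^ (-(1 / 2) : ℝ))) := by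
        apply lintegral_mono_ae
        rw [ae_restrict_iff' measurableSet_Ioc]
        exact Eventually.of_forall fun s hs => hin s hs
    _ = ENNReal.ofReal c1 * ENNReal.ofReal L * ENNReal.ofReal L + ENNReal.ofReal c2 *
        ∫⁻ s in Ioc (0 : ℝ) L, ∫⁻ t in Ioc (0 : ℝ) L,
          ENNReal.ofReal (‖1 - qq β X y s t‖ ^ (-(1 / 2) : ℝ)) := by
        rw [lintegral_add_left measurable_const, lintegral_const, Measure.restrict_apply_univ,
            Real.volume_Ioc, sub_zero, lintegral_const_mul' _ _ ENNReal.ofReal_ne_top]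
    _ ≤ ENNReal.ofReal c1 * ENNReal.ofReal L * ENNReal.ofReal L +
        ENNReal.ofReal c2 * ENNReal.ofReal CG := by gcongr
    _ = _ := by
        rw [← ENNReal.ofReal_mul hc10, ← ENNReal.ofReal_mul (by positivity),
          ← ENNReal.ofReal_mul hc20, ← ENNReal.ofReal_add (by positivity) (by positivity)]

/-- difference of two modes -/
lemma mode_cmp (hKOP : S_KOP) {L β : ℝ} {X y : ℝ → ℝ} (hc : Crv L β X y) {Y : ℝ} (hY0 : 0 ≤ Y)
    (hY : ∀ s ∈ Ioc (0 : ℝ) L, ∀ t ∈ Ioc (0 : ℝ) L, |y s - y t| ≤ Y) {κ a : ℂ} {lam : ℝ}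
    (h : κ ^ 2 = a ^ 2 - lam) (hκ : 0 ≤ κ.re) (ha : 0 < a.re) (hai : a.im ≠ 0)
    (hlam : 2 * |lam| ≤ ‖a‖ ^ 2) (ha1 : 1 ≤ ‖a‖) (m : ℤ) :
    ‖Mo L X y m κ - Mo L X y m a‖ ≤ L * (|lam| * (Y + 1) / ‖a‖ ^ 2) := by
  unfold Mo
  rw [← kop_sub hKOP hc.L_pos (mk_cont hc.X_cont hc.y_cont m κ) (mk_cont hc.X_cont hc.y_cont m a)]
  apply kop_le hKOP hc.L_pos
  · exact (mk_cont hc.X_cont hc.y_cont m κ).sub (mk_cont hc.X_cont hc.y_cont m a)
  · positivity
  · intro s hs t ht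
    have h1 := ker_cmp h hκ ha hai hlam ha1 (abs_nonneg (y s - y t)) (hY s hs t ht)
    unfold Pool.Agent.H773.LK.mk
    rw [mul_div_assoc, mul_div_assoc, ← mul_sub, norm_mul]
    have h2 : ‖Complex.exp (Complex.I * ((m : ℂ) * ((X s - X t : ℝ) : ℂ)))‖ = 1 := by
      rw [Complex.norm_exp]
      simp
    rw [h2, one_mul]
    exact h1

lemma sum_le_tsum_Icc (τ : ℝ) (N : ℕ) :
    ∑ m ∈ Finset.Icc (-(N : ℤ)) N, 1 / (((m : ℝ) + 1 / 2) ^ 2 + τ ^ 2) ≤
      ∑' m : ℤ, 1 / (((m : ℝ) + 1 / 2) ^ 2 + τ ^ 2) := by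
  apply Summable.sum_le_tsum _ (fun m _ => by positivity)
  have h := (Real.summable_one_div_int_add_rpow (1 / 2) 2).2 (by norm_num)
  refine Summable.of_nonneg_of_le (fun m => by positivity) (fun m => ?_) h
  have hm : (m : ℝ) + 1 / 2 ≠ 0 := by
    intro h
    have h2 : (2 * m + 1 : ℤ) = 0 := by
      have : (2 * (m : ℝ) + 1) = 0 := by linarith
      exact_mod_cast this
    omega
  have hpos : 0 < |(m : ℝ) + 1 / 2| := abs_pos.2 hm
  rw [Real.rpow_two, sq_abs]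
  apply one_div_le_one_div_of_le (by positivity)
  nlinarith [sq_nonneg τ]

lemma tsum_tendsto :
    Tendsto (fun τ : ℝ => ∑' m : ℤ, 1 / (((m : ℝ) + 1 / 2) ^ 2 + τ ^ 2)) atTop (𝓝 0) := by
  have h := (Real.summable_one_div_int_add_rpow (1 / 2) 2).2 (by norm_num)
  have := tendsto_tsum_of_dominated_convergence (𝓕 := atTop)
    (f := fun (τ : ℝ) (m : ℤ) => 1 / (((m : ℝ) + 1 / 2) ^ 2 + τ ^ 2)) (g := fun _ => 0) h
    (fun m => by
      have h1 : Tendsto (fun τ : ℝ => ((m : ℝ) + 2⁻¹) ^ 2 + τ ^ 2) atTop atTop :=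
        tendsto_atTop_add_const_left _ _ (tendsto_pow_atTop (by norm_num))
      have h2 := h1.inv_tendsto_atTop
      simp only [one_div]
      exact h2)
    (Eventually.of_forall fun τ m => by
      rw [Real.norm_of_nonneg (by positivity)]
      have hm : (m : ℝ) + 1 / 2 ≠ 0 := by
        intro h
        have h2 : (2 * m + 1 : ℤ) = 0 := by
          have : (2 * (m : ℝ) + 1) = 0 := by linarith
          exact_mod_cast this
        omega
      have hpos : 0 < |(m : ℝ) + 1 / 2| := abs_pos.2 hm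
      rw [Real.rpow_two, sq_abs]
      apply one_div_le_one_div_of_le (by positivity)
      nlinarith [sq_nonneg τ])
  simpa using this

theorem t_DEC (hKOP : S_KOP) (_hMODE : S_MODE) (hSER : S_SER) (hGEO : S_GEO) (hCONV : S_CONV) (hKMI : S_KMI) : S_DEC := by
  intro L β X y hc lam
  have hL := hc.L_pos
  have hβ := hc.β_pos
  obtain ⟨Y, hY0, hY, A, B, hAB⟩ := ref_bd hKOP hSER hGEO hc
  set F : ℝ → ℝ := fun τ => √(A * (1 / τ) ^ 2 + B * τ ^ (-(1 / 2) : ℝ)) +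
    L * |lam| * (Y + 1) / β ^ 2 * ∑' m : ℤ, 1 / (((m : ℝ) + 1 / 2) ^ 2 + τ ^ 2) with hF
  have hF0 : Tendsto F atTop (𝓝 0) := by
    have h1 : Tendsto (fun τ : ℝ => 1 / τ) atTop (𝓝 0) := by
      simpa using tendsto_inv_atTop_zero
    have h2 : Tendsto (fun τ : ℝ => τ ^ (-(1 / 2) : ℝ)) atTop (𝓝 0) :=
      tendsto_rpow_neg_atTop (by norm_num)
    have h3 : Tendsto (fun τ : ℝ => A * (1 / τ) ^ 2 + B * τ ^ (-(1 / 2) : ℝ)) atTop (𝓝 0) := by
      have := ((h1.pow 2).const_mul A).add (h2.const_mul B)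
      simpa using this
    have h4 := (h3.sqrt).add (tsum_tendsto.const_mul (L * |lam| * (Y + 1) / β ^ 2))
    simpa [hF] using h4
  refine squeeze_zero_norm' ?_ hF0
  have hlarge : ∀ᶠ τ : ℝ in atTop, 0 < τ ∧ 1 ≤ β * τ ∧ 2 * |lam| ≤ (β * τ) ^ 2 := by
    have h1 : Tendsto (fun τ : ℝ => β * τ) atTop atTop := tendsto_id.const_mul_atTop hβ
    have h2 : Tendsto (fun τ : ℝ => (β * τ) ^ 2) atTop atTop := (tendsto_pow_atTop (by norm_num)).comp h1
    exact (eventually_gt_atTop 0).and ((h1.eventually_ge_atTop 1).and (h2.eventually_ge_atTop _))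
  filter_upwards [hlarge] with τ hτ
  obtain ⟨hτ0, hτ1, hτ2⟩ := hτ
  have hth : ((1 / 2 : ℝ) : ℂ) + (τ : ℂ) * Complex.I = th τ := rfl
  rw [hth]
  set κ := kmi β (th τ) lam with hκ
  -- admissibility and convergence
  obtain ⟨r, c₀, C₀, hr, hc₀, -, hadm⟩ := hKMI β (th τ) lam hβ (by rw [th_re]; norm_num)
    (by rw [th_re]; norm_num) (by rw [th_im]; exact hτ0)
  obtain ⟨ρ, hρ, hρ2⟩ := hCONV L β X y hc c₀ C₀ hc₀
  have hKK := hρ2 κ (hadm (th τ) (Metric.mem_ball_self hr))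
  -- bound of the partial sums
  have hPS : ∀ N, ‖PS L X y κ N‖ ≤ F τ := by
    intro N
    have hnsq : ∀ m : ℤ, (β * τ) ^ 2 ≤ ‖k0 β τ m‖ ^ 2 := by
      intro m
      rw [k0_norm_sq]
      nlinarith [mul_nonneg (sq_nonneg β) (sq_nonneg ((m : ℝ) + 1 / 2))]
    have hdiff : ∀ m : ℤ, ‖Mo L X y m (κ m) - Mo L X y m (k0 β τ m)‖ ≤
        L * |lam| * (Y + 1) / β ^ 2 * (1 / (((m : ℝ) + 1 / 2) ^ 2 + τ ^ 2)) := by
      intro m
      have hge1 : 1 ≤ ‖k0 β τ m‖ := by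
        have h1 : (1 : ℝ) ^ 2 ≤ ‖k0 β τ m‖ ^ 2 := by
          refine le_trans ?_ (hnsq m)
          exact pow_le_pow_left₀ zero_le_one hτ1 2
        exact (sq_le_sq₀ zero_le_one (norm_nonneg _)).1 h1
      have h1 := mode_cmp hKOP hc hY0 hY (κ := κ m) (a := k0 β τ m) (lam := lam)
        (by rw [hκ, kmi_sq, k0_sq]) (kmi_re β (th τ) lam m) (k0_re hβ τ m) (k0_im hβ hτ0 m)
        (hτ2.trans (hnsq m)) hge1 m
      refine h1.trans (le_of_eq ?_)
      rw [k0_norm_sq]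
      have : 0 < ((m : ℝ) + 1 / 2) ^ 2 + τ ^ 2 := by positivity
      field_simp
    have href : ‖∑ m ∈ Finset.Icc (-(N : ℤ)) N, Mo L X y m (k0 β τ m)‖ ≤
        √(A * (1 / τ) ^ 2 + B * τ ^ (-(1 / 2) : ℝ)) := by
      apply Real.le_sqrt_of_sq_le
      exact hAB τ hτ0 N
    have hdec : PS L X y κ N = ∑ m ∈ Finset.Icc (-(N : ℤ)) N, Mo L X y m (k0 β τ m) +
        ∑ m ∈ Finset.Icc (-(N : ℤ)) N, (Mo L X y m (κ m) - Mo L X y m (k0 β τ m)) := by
      unfold PS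
      rw [Finset.sum_sub_distrib]
      abel
    rw [hdec]
    refine (norm_add_le _ _).trans (add_le_add href ?_)
    refine (norm_sum_le _ _).trans ((Finset.sum_le_sum fun m _ => hdiff m).trans ?_)
    rw [← Finset.mul_sum]
    exact mul_le_mul_of_nonneg_left (sum_le_tsum_Icc τ N) (by positivity)
  have hbound : ∀ N, ‖KK L X y κ‖ ≤ F τ + ρ N := by
    intro N
    have h1 : KK L X y κ = PS L X y κ N - (PS L X y κ N - KK L X y κ) := by abel
    rw [h1]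
    exact (norm_sub_le _ _).trans (add_le_add (hPS N) (hKK N))
  have hlim : Tendsto (fun N => F τ + ρ N) atTop (𝓝 (F τ + 0)) := tendsto_const_nhds.add hρ
  rw [add_zero] at hlim
  exact ge_of_tendsto' hlim hbound

end Pool.Agent.H155.LK
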